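import Mathlib

set_option autoImplicit false

namespace Pool.Agent.Results.MP_308f9e_co.Counter

open Polynomial

/-- flag f-vector: chains whose set of ranks is exactly `T` -/
noncomputable def alpha {P : Type} [PartialOrder P] (r : P → ℕ) (T : Finset ℕ) : ℕ :=
  Nat.card {y : T → P // StrictMono y ∧ ∀ t : T, r (y t) = t}

/-- flag h-vector -/
noncomputable def beta {P : Type} [PartialOrder P] (r : P → ℕ) (S : Finset ℕ) : ℤ :=
  ∑ T ∈ S.powerset, (-1) ^ (S \ T).card * (alpha r T : ℤ)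

/-- augmented Chow polynomial -/
noncomputable def Haug {P : Type} [PartialOrder P] (r : P → ℕ) (n : ℕ) : ℤ[X] :=
  ∑ S ∈ (Finset.Icc 1 n).powerset.filter (fun S => ∀ i ∈ S, i + 1 ∉ S),
    C (beta r S) * X ^ S.card * (1 + X) ^ (n + 1 - 2 * S.card)

def Q : Type := Fin 15
instance : Fintype Q := inferInstanceAs (Fintype (Fin 15))
instance : DecidableEq Q := inferInstanceAs (DecidableEq (Fin 15))

def mask (x : Q) : ℕ := if x.val < 8 then x.val else 8 * (x.val - 7)
def rk (x : Q) : ℕ := mask x % 2 + mask x / 2 % 2 + mask x / 4 % 2 + mask x / 8 % 2 +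
  mask x / 16 % 2 + mask x / 32 % 2

instance : PartialOrder Q where
  le x y := mask x &&& mask y = mask x
  le_refl := by decide
  le_trans := by decide +kernel
  le_antisymm := by decide +kernel

instance : DecidableLE Q := fun x y => inferInstanceAs (Decidable (mask x &&& mask y = mask x))
instance : DecidableLT Q := fun x y => inferInstanceAs (Decidable (x ≤ y ∧ ¬ y ≤ x))

instance : OrderBot Q where
  bot := (0 : Fin 15)
  bot_le := by decide

instance (T : Finset ℕ) : DecidablePred (fun y : T → Q => StrictMono y ∧ ∀ t : T, rk (y t) = t) :=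
  fun y => inferInstanceAs (Decidable ((∀ a b : T, a < b → y a < y b) ∧ ∀ t : T, rk (y t) = t))

theorem a0 : alpha rk ∅ = 1 := by
  rw [alpha, Nat.card_eq_fintype_card]; decide +kernel
theorem a1 : alpha rk {1} = 6 := by
  rw [alpha, Nat.card_eq_fintype_card]; decide +kernel
theorem a2 : alpha rk {2} = 6 := by
  rw [alpha, Nat.card_eq_fintype_card]; decide +kernel
theorem a3 : alpha rk {3} = 2 := by
  rw [alpha, Nat.card_eq_fintype_card]; decide +kernel
theorem a13 : alpha rk {1, 3} = 6 := by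
  rw [alpha, Nat.card_eq_fintype_card]; decide +kernel

theorem b0 : beta rk ∅ = 1 := by simp [beta, a0]
theorem b1 (t : ℕ) : beta rk {t} = alpha rk {t} - 1 := by
  have : ({t} : Finset ℕ).powerset = {∅, {t}} := by
    ext s; simp [Finset.subset_singleton_iff]
  rw [beta, this, Finset.sum_pair (Finset.singleton_ne_empty t).symm, a0]
  simp
  ring
theorem b13 : beta rk {1, 3} = -1 := by
  have : ({1, 3} : Finset ℕ).powerset = {∅, {1}, {3}, {1, 3}} := by decide
  rw [beta, this, Finset.sum_insert (by decide), Finset.sum_insert (by decide),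
    Finset.sum_pair (by decide), a0, a1, a3, a13]
  decide

theorem H_eq : Haug rk 3 = (1 + X) ^ 4 + 11 * X * (1 + X) ^ 2 - X ^ 2 := by
  have : (Finset.Icc 1 3).powerset.filter (fun S : Finset ℕ => ∀ i ∈ S, i + 1 ∉ S) =
      {∅, {1}, {2}, {3}, {1, 3}} := by decide
  rw [Haug, this, Finset.sum_insert (by decide), Finset.sum_insert (by decide),
    Finset.sum_insert (by decide), Finset.sum_pair (by decide), b0, b1, b1, b1, b13, a1, a2, a3]
  have c2 : ({1, 3} : Finset ℕ).card = 2 := by decide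
  simp only [Finset.card_empty, Finset.card_singleton, c2]
  norm_num
  ring

def fm (m : Q) (y : Set.Iic m) : Finset (Fin 3) :=
  Finset.univ.filter (fun i => (mask y.1).testBit i.val ∨ (mask y.1).testBit (i.val + 3))

theorem result : ¬ ∀ (P : Type) [Fintype P] [PartialOrder P] [OrderBot P] (r : P → ℕ) (n : ℕ),
    1 ≤ n → (∀ m : P, IsMax m → Nonempty (Set.Iic m ≃o Finset (Fin n))) →
    r ⊥ = 0 → (∀ x y : P, x ⋖ y → r y = r x + 1) →
    ∀ z : ℂ, aeval z (Haug r n) = 0 → z.im = 0 := by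
  intro h
  have h1 : ∀ m : Q, (∀ b, m ≤ b → b ≤ m) → Function.Bijective (fm m) ∧
      ∀ a b : Set.Iic m, fm m a ≤ fm m b ↔ a ≤ b := by decide +kernel
  have h2 : ∀ x y : Q, x < y → (∀ c, x < c → ¬ c < y) → rk y = rk x + 1 := by decide +kernel
  have h3 := h Q rk 3 (by norm_num)
    (fun m hm => ⟨⟨Equiv.ofBijective _ (h1 m (fun b hb => hm hb)).1,
      fun {a b} => (h1 m (fun b hb => hm hb)).2 a b⟩⟩)
    (by decide) (fun x y hxy => h2 x y hxy.1 (fun c hc => hxy.2 hc))
  set s : ℝ := √5 with hs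
  have s2 : s ^ 2 = 5 := Real.sq_sqrt (by norm_num)
  have s0 : 0 ≤ s := Real.sqrt_nonneg _
  set y : ℝ := (5 * s - 15) / 2 with hy
  have y2 : y ^ 2 + 15 * y + 25 = 0 := by rw [hy]; nlinarith
  have y3 : 0 < 4 - y ^ 2 := by
    have : 2.2 < s := by nlinarith
    have : s < 2.3 := by nlinarith
    rw [hy]; nlinarith
  set w : ℝ := √(4 - y ^ 2) with hw
  have w2 : w ^ 2 = 4 - y ^ 2 := Real.sq_sqrt y3.le
  have w0 : 0 < w := Real.sqrt_pos.2 y3
  set z : ℂ := ((y : ℂ) + (w : ℂ) * Complex.I) / 2 with hz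
  have z2 : z ^ 2 + 1 = y * z := by
    have : (w : ℂ) ^ 2 = 4 - (y : ℂ) ^ 2 := by exact_mod_cast w2
    rw [hz]
    linear_combination (Complex.I ^ 2 / 4) * this + (4 - (y : ℂ) ^ 2) / 4 * Complex.I_sq
  have y2c : (y : ℂ) ^ 2 + 15 * y + 25 = 0 := by exact_mod_cast y2
  have h4 := h3 z (by
    rw [H_eq]
    simp only [map_add, map_sub, map_mul, map_pow, map_one, aeval_X, map_ofNat]
    linear_combination (z ^ 2 + 1 + y * z + 15 * z) * z2 + z ^ 2 * y2c)
  rw [hz] at h4
  simp at h4
  exact w0.ne' h4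

end Pool.Agent.Results.MP_308f9e_co.Counter
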